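import Pool.Agent.H43.Quer3

set_option autoImplicit false

namespace Pool.Agent.Ins56

open MeasureTheory ProbabilityTheory Module Real
open scoped ENNReal RealInnerProductSpace

/-- `n`-dimensional Euclidean space. -/
abbrev E (n : ℕ) := EuclideanSpace ℝ (Fin n)

/-- The `k`-dimensional volume of the orthogonal projection of `K` onto the span of an orthonormal
`k`-frame `b`, computed in the coordinates given by `b`. -/
noncomputable def shadow {n k : ℕ} (b : Fin k → E n) (K : Set (E n)) : ℝ :=
  (volume {y : E k | ∃ x ∈ K, ∀ i, y i = ⟪b i, x⟫}).toReal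

theorem shadow_eq_pi {n k : ℕ} (b : Fin k → E n) (K : Set (E n)) :
    shadow b K = (volume ((fun x : E n => fun i : Fin k => ⟪b i, x⟫) '' K)).toReal := by
  unfold shadow
  congr 1
  have h := (EuclideanSpace.volume_preserving_symm_measurableEquiv_toLp (Fin k)).measure_preimage_equiv
    ((fun x : E n => fun i : Fin k => ⟪b i, x⟫) '' K)
  rw [← h]
  congr 1
  ext y
  constructor
  · rintro ⟨x, hx, hy⟩
    exact ⟨x, hx, by ext i; exact (hy i).symm⟩
  · rintro ⟨x, hx, hy⟩
    exact ⟨x, hx, fun i => (congrFun hy i).symm⟩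

theorem gram_factor {n k : ℕ} {a : Fin k → E n} (ha : LinearIndependent ℝ a) (K : Set (E n)) :
    (volume ((fun x : E n => fun i : Fin k => ⟪a i, x⟫) '' K)).toReal /
      √(Matrix.of (fun i j : Fin k => ⟪a i, a j⟫)).det =
    shadow (InnerProductSpace.gramSchmidtNormed ℝ a) K ∧
    0 < (Matrix.of (fun i j : Fin k => ⟪a i, a j⟫)).det := by
  set b := InnerProductSpace.gramSchmidtNormed ℝ a with hb
  have hbo : Orthonormal ℝ b := InnerProductSpace.gramSchmidtNormed_orthonormal ha
  have hspan : Submodule.span ℝ (Set.range b) = Submodule.span ℝ (Set.range a) := by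
    rw [hb, InnerProductSpace.span_gramSchmidtNormed_range, InnerProductSpace.span_gramSchmidt]
  have hexp : ∀ i, a i = ∑ j, ⟪b j, a i⟫ • b j := by
    intro i
    have hmem : a i ∈ Submodule.span ℝ (Set.range b) := by
      rw [hspan]; exact Submodule.subset_span ⟨i, rfl⟩
    obtain ⟨c, hc⟩ := (Submodule.mem_span_range_iff_exists_fun ℝ).1 hmem
    have hcj : ∀ j, ⟪b j, a i⟫ = c j := by
      intro j
      rw [← hc, inner_sum, Finset.sum_eq_single j]
      · rw [inner_smul_right, orthonormal_iff_ite.1 hbo j j, if_pos rfl, mul_one]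
      · intro l _ hl
        rw [inner_smul_right, orthonormal_iff_ite.1 hbo j l, if_neg (Ne.symm hl), mul_zero]
      · simp
    simp only [hcj]
    exact hc.symm
  set M : Matrix (Fin k) (Fin k) ℝ := Matrix.of (fun i j => ⟪a i, b j⟫) with hM
  have himg : (fun x : E n => fun i : Fin k => ⟪a i, x⟫) '' K =
      (Matrix.toLin' M) '' ((fun x : E n => fun i : Fin k => ⟪b i, x⟫) '' K) := by
    rw [Set.image_image]
    apply Set.image_congr
    intro x _
    ext i
    rw [Matrix.toLin'_apply, Matrix.mulVec, dotProduct]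
    conv_lhs => rw [hexp i, sum_inner]
    apply Finset.sum_congr rfl
    intro j _
    rw [inner_smul_left, hM, Matrix.of_apply, real_inner_comm (a i) (b j)]
    simp
  have hgram : Matrix.of (fun i j : Fin k => ⟪a i, a j⟫) = M * M.transpose := by
    ext i j
    rw [Matrix.of_apply, Matrix.mul_apply]
    conv_lhs => rw [hexp j, inner_sum]
    apply Finset.sum_congr rfl
    intro l _
    rw [inner_smul_right, Matrix.transpose_apply, hM, Matrix.of_apply, Matrix.of_apply,
      real_inner_comm (a j) (b l), mul_comm]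
  have hdet : (Matrix.of (fun i j : Fin k => ⟪a i, a j⟫)).det = M.det ^ 2 := by
    rw [hgram, Matrix.det_mul, Matrix.det_transpose, sq]
  have hMinj : M.det ≠ 0 := by
    intro h0
    obtain ⟨v, hv0, hv⟩ := Matrix.exists_vecMul_eq_zero_iff.2 h0
    apply hv0
    have hz : ∑ i, v i • a i = 0 := by
      have h1 : ∀ j, ⟪b j, ∑ i, v i • a i⟫ = 0 := by
        intro j
        rw [inner_sum]
        have hvj : ∑ i, v i * M i j = 0 := by
          have := congrFun hv j
          simpa [Matrix.vecMul, dotProduct] using this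
        rw [← hvj]
        apply Finset.sum_congr rfl
        intro i _
        rw [inner_smul_right, hM, Matrix.of_apply, real_inner_comm (a i) (b j)]
      have hmem : (∑ i, v i • a i) ∈ Submodule.span ℝ (Set.range b) := by
        rw [hspan]
        exact Submodule.sum_mem _ fun i _ => Submodule.smul_mem _ _ (Submodule.subset_span ⟨i, rfl⟩)
      have h2 : ∀ w ∈ Submodule.span ℝ (Set.range b), ⟪w, ∑ i, v i • a i⟫ = 0 := by
        intro w hw
        induction hw using Submodule.span_induction with
        | mem x hx => obtain ⟨j, rfl⟩ := hx; exact h1 j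
        | zero => simp
        | add x y _ _ hx hy => rw [inner_add_left, hx, hy, add_zero]
        | smul c x _ hx => rw [inner_smul_left, hx, mul_zero]
      exact inner_self_eq_zero.1 (h2 _ hmem)
    ext i
    exact (Fintype.linearIndependent_iff.1 ha) v hz i
  refine ⟨?_, ?_⟩
  · rw [himg, MeasureTheory.Measure.addHaar_image_linearMap, LinearMap.det_toLin', hdet,
      Real.sqrt_sq_eq_abs, ENNReal.toReal_mul, ENNReal.toReal_ofReal (abs_nonneg _), ← shadow_eq_pi]
    have := abs_pos.2 hMinj
    field_simp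
  · rw [hdet]; positivity

theorem gram_dep {n k : ℕ} {a : Fin k → E n} (ha : ¬ LinearIndependent ℝ a) (K : Set (E n)) :
    (Matrix.of (fun i j : Fin k => ⟪a i, a j⟫)).det = 0 ∧
    shadow (InnerProductSpace.gramSchmidtNormed ℝ a) K = 0 := by
  constructor
  · obtain ⟨c, hc, i0, hi0⟩ := Fintype.not_linearIndependent_iff.1 ha
    apply Matrix.exists_mulVec_eq_zero_iff.1
    refine ⟨c, fun h => hi0 (congrFun h i0), ?_⟩
    ext i
    rw [Matrix.mulVec, dotProduct]
    have : ∑ j, (Matrix.of (fun i j : Fin k => ⟪a i, a j⟫)) i j * c j = ⟪a i, ∑ j, c j • a j⟫ := by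
      rw [inner_sum]
      apply Finset.sum_congr rfl
      intro j _
      rw [inner_smul_right, Matrix.of_apply, mul_comm]
    rw [this, hc, inner_zero_right]
    rfl
  · have hz : ∃ i, InnerProductSpace.gramSchmidtNormed ℝ a i = 0 := by
      by_contra hcon
      push Not at hcon
      apply ha
      have hne : ∀ i, InnerProductSpace.gramSchmidt ℝ a i ≠ 0 := by
        intro i h0
        apply hcon i
        rw [InnerProductSpace.gramSchmidtNormed, h0, smul_zero]
      have hli : LinearIndependent ℝ (InnerProductSpace.gramSchmidt ℝ a) :=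
        linearIndependent_of_ne_zero_of_inner_eq_zero hne
          (fun i j hij => InnerProductSpace.gramSchmidt_orthogonal ℝ a hij)
      have h1 := finrank_span_eq_card hli
      rw [InnerProductSpace.span_gramSchmidt] at h1
      exact linearIndependent_iff_card_eq_finrank_span.2 h1.symm
    obtain ⟨i, hi⟩ := hz
    rw [shadow_eq_pi]
    have hsub : ((fun x : E n => fun i : Fin k =>
        ⟪InnerProductSpace.gramSchmidtNormed ℝ a i, x⟫) '' K) ⊆
        {y : Fin k → ℝ | y i = 0} := by
      rintro y ⟨x, _, rfl⟩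
      change ⟪InnerProductSpace.gramSchmidtNormed ℝ a i, x⟫ = 0
      rw [hi, inner_zero_left]
    have hnull : volume {y : Fin k → ℝ | y i = 0} = 0 := by
      have := Measure.pi_hyperplane (fun _ : Fin k => (volume : Measure ℝ)) i 0
      rw [volume_pi]
      exact this
    rw [measure_mono_null hsub hnull, ENNReal.toReal_zero]

open Pool.Agent.H43.Gauss in
theorem FF_eq {n k : ℕ} (K : Set (E n)) (A : Fin k → Fin n → ℝ) :
    FF k {x : Fin n → ℝ | (WithLp.toLp 2 x : E n) ∈ K} A =
      shadow (InnerProductSpace.gramSchmidtNormed ℝ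
        (fun i => (WithLp.toLp 2 (A i) : E n))) K ^ (-(n : ℝ)) := by
  set a : Fin k → E n := fun i => WithLp.toLp 2 (A i) with ha
  have himg : (fun x : Fin n → ℝ => (Matrix.of A).mulVec x) ''
      {x : Fin n → ℝ | (WithLp.toLp 2 x : E n) ∈ K} = (fun x : E n => fun i : Fin k => ⟪a i, x⟫) '' K := by
    ext y
    constructor
    · rintro ⟨x, hx, rfl⟩
      refine ⟨WithLp.toLp 2 x, hx, ?_⟩
      ext i
      exact (mulVec_eq A x i).symm
    · rintro ⟨x, hx, rfl⟩
      refine ⟨WithLp.ofLp x, by simpa using hx, ?_⟩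
      ext i
      exact mulVec_eq A (WithLp.ofLp x) i
  have hgr : (Matrix.of A * (Matrix.of A).transpose) =
      Matrix.of (fun i j : Fin k => ⟪a i, a j⟫) := by
    ext i j
    rw [mul_transpose_apply, Matrix.of_apply]
  unfold FF
  rw [himg, hgr]
  by_cases hli : LinearIndependent ℝ a
  · rw [(gram_factor hli K).1]
  · obtain ⟨h1, h2⟩ := gram_dep hli K
    rw [h1, h2, Real.sqrt_zero, div_zero]

theorem kappa_eq (m : ℕ) : (volume (Metric.closedBall (0 : E m) 1)).toReal =
    (volume {x : Fin m → ℝ | ∑ t, x t ^ 2 ≤ 1}).toReal := by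
  have h := (EuclideanSpace.volume_preserving_symm_measurableEquiv_toLp (Fin m)).measure_preimage_equiv
    {x : Fin m → ℝ | ∑ t, x t ^ 2 ≤ 1}
  rw [← h]
  congr 2
  ext y
  rw [mem_closedBall_zero_iff, EuclideanSpace.norm_eq]
  change _ ↔ ∑ t, (y t) ^ 2 ≤ 1
  simp only [Real.norm_eq_abs, sq_abs]
  constructor
  · intro h1
    have h2 : (√(∑ t, (y t) ^ 2)) ^ 2 ≤ 1 := by
      rw [sq_le_one_iff₀ (Real.sqrt_nonneg _)]; exact h1
    rwa [Real.sq_sqrt (Finset.sum_nonneg fun _ _ => sq_nonneg _)] at h2
  · intro h1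
    rw [show (1 : ℝ) = √1 by simp]
    exact Real.sqrt_le_sqrt h1

open Pool.Agent.H43.Gauss in
theorem int_eq {n : ℕ} (k : ℕ) (K : Set (E n)) :
    ∫ A, FF k {x : Fin n → ℝ | (WithLp.toLp 2 x : E n) ∈ K} A
      ∂(Measure.pi (fun _ : Fin k => γ0 n)) =
    ∫ a : Fin k → E n, shadow (InnerProductSpace.gramSchmidtNormed ℝ a) K ^ (-(n : ℝ))
      ∂(Measure.pi (fun _ : Fin k => stdGaussian (E n))) := by
  set e : (Fin k → Fin n → ℝ) ≃ᵐ (Fin k → E n) :=
    MeasurableEquiv.piCongrRight (fun _ => MeasurableEquiv.toLp 2 (Fin n → ℝ)) with he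
  have hmp : MeasurePreserving e (Measure.pi (fun _ : Fin k => γ0 n))
      (Measure.pi (fun _ : Fin k => stdGaussian (E n))) := by
    have := measurePreserving_pi (fun _ : Fin k => γ0 n) (fun _ : Fin k => stdGaussian (E n))
      (f := fun _ => (WithLp.toLp 2 : (Fin n → ℝ) → E n)) (fun _ => mp_toLp n)
    exact this
  rw [← hmp.integral_comp e.measurableEmbedding]
  congr 1
  ext A
  rw [FF_eq]
  rfl

end Pool.Agent.Ins56
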